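import Pool.Agent.H85.PS.Targets

/-!
Module SIE of the board psv_modules (MP_3cf473_nt): the auxiliary polynomials, by the lemma of
Siegel.
-/

set_option autoImplicit false

open Polynomial Finset Pool.Agent.H85.PS

namespace Pool.Agent.H39.PS

section

attribute [local instance] Matrix.seminormedAddCommGroup

/-- the lemma of Siegel with a natural exponent -/
theorem siegel {α β : Type} [Fintype α] [Fintype β] (a : α → β → ℤ) (Y : ℝ) (E : ℕ)
    (hY : 1 ≤ Y) (ha : ∀ v u, |((a v u : ℤ) : ℝ)| ≤ Y)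
    (hlt : Fintype.card α < Fintype.card β) (h0 : 0 < Fintype.card α)
    (hE : (Fintype.card α : ℝ) ≤ E * ((Fintype.card β : ℝ) - Fintype.card α)) :
    ∃ t : β → ℤ, t ≠ 0 ∧ (∀ v, ∑ u, a v u * t u = 0) ∧
      ∀ u, |((t u : ℤ) : ℝ)| ≤ (Fintype.card β * Y) ^ E := by
  set A : Matrix α β ℤ := Matrix.of a with hA
  obtain ⟨t, ht0, ht, htn⟩ := Int.Matrix.exists_ne_zero_int_vec_norm_le A hlt h0
  refine ⟨t, ht0, fun v => congrFun ht v, fun u => ?_⟩
  have hAn : ‖A‖ ≤ Y := by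
    rw [Matrix.norm_le_iff (by linarith)]
    intro v u
    rw [Int.norm_eq_abs]
    exact ha v u
  have hmax : max 1 ‖A‖ ≤ Y := max_le hY hAn
  have hU1 : (1 : ℝ) ≤ Fintype.card β := by exact_mod_cast (by omega : 1 ≤ Fintype.card β)
  have hbase : (1 : ℝ) ≤ Fintype.card β * max 1 ‖A‖ := by
    have := le_max_left 1 ‖A‖
    nlinarith
  have hd : (0 : ℝ) < (Fintype.card β : ℝ) - Fintype.card α := by
    have : (Fintype.card α : ℝ) < Fintype.card β := by exact_mod_cast hlt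
    linarith
  have hexp : ((Fintype.card α : ℝ) / ((Fintype.card β : ℝ) - Fintype.card α)) ≤ (E : ℝ) := by
    rw [div_le_iff₀ hd]
    exact hE
  have h5 : |((t u : ℤ) : ℝ)| ≤ ‖t‖ := by
    rw [← Int.norm_eq_abs]
    exact norm_le_pi_norm t u
  calc |((t u : ℤ) : ℝ)| ≤ ‖t‖ := h5
    _ ≤ _ := htn
    _ ≤ (Fintype.card β * max 1 ‖A‖) ^ (E : ℝ) := Real.rpow_le_rpow_of_exponent_le hbase hexp
    _ = (Fintype.card β * max 1 ‖A‖) ^ E := Real.rpow_natCast _ _
    _ ≤ (Fintype.card β * Y) ^ E := by gcongr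

end

/-- induction over monomials -/
theorem prodInd {s : ℕ} (Q : ℕ → PowerSeries ℚ → Prop) (h0 : Q 0 1) (f : Fin s → PowerSeries ℚ)
    (hs : ∀ t g k, Q t g → Q (t + 1) (g * f k)) (e : Fin s → ℕ) :
    Q (∑ k, e k) (∏ k, f k ^ e k) := by
  have h1 : ∀ (k : Fin s) (n t : ℕ) (g : PowerSeries ℚ), Q t g → Q (t + n) (g * f k ^ n) := by
    intro k n
    induction n with
    | zero =>
      intro t g h
      simpa using h
    | succ n ih =>
      intro t g h
      have h2 := hs _ _ k (ih t g h)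
      rw [pow_succ, ← mul_assoc, ← add_assoc]
      exact h2
  have h2 : ∀ S : Finset (Fin s), Q (∑ k ∈ S, e k) (∏ k ∈ S, f k ^ e k) := by
    intro S
    induction S using Finset.induction_on with
    | empty => simpa using h0
    | insert a S ha ih =>
      rw [Finset.sum_insert ha, Finset.prod_insert ha, add_comm, mul_comm]
      exact h1 a (e a) _ _ ih
  exact h2 univ

theorem lcmUpto_dvd {i T : ℕ} (h : i ≤ T) : Nat.lcmUpto i ∣ Nat.lcmUpto T := by
  unfold Nat.lcmUpto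
  refine Finset.lcm_dvd fun x hx => ?_
  refine Finset.dvd_lcm (s := Finset.Icc 1 T) (f := id) ?_
  rw [Finset.mem_Icc] at hx ⊢
  omega

theorem typ_one (q : ℤ) : Typ q 0 1 := by
  intro i
  rcases Nat.eq_zero_or_pos i with rfl | hi
  · exact ⟨1, by simp⟩
  · refine ⟨0, ?_⟩
    rw [PowerSeries.coeff_one, if_neg (by omega)]
    simp

theorem maj_one (ρ : ℝ) (hρ : 0 ≤ ρ) : Maj 1 ρ 1 := by
  intro i
  rcases Nat.eq_zero_or_pos i with rfl | hi
  · simp
  · rw [PowerSeries.coeff_one, if_neg (by omega)]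
    simp only [Rat.cast_zero, abs_zero, one_mul]
    positivity

theorem maj_lg (b B : ℕ) (hb : b ≤ B) : Maj 1 B (lg (b : ℚ)) := by
  intro i
  have hb' : (b : ℝ) ≤ B := by exact_mod_cast hb
  rw [lg, PowerSeries.coeff_mk]
  push_cast
  rw [abs_div, abs_mul, abs_pow, abs_neg, abs_one, one_pow, one_mul, one_mul, abs_pow,
    Nat.abs_cast, Nat.abs_cast]
  rcases Nat.eq_zero_or_pos i with rfl | hi
  · simp
  · have hi' : (1 : ℝ) ≤ i := by exact_mod_cast hi
    refine (div_le_self (by positivity) hi').trans ?_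
    gcongr

theorem maj_mono {K ρ σ : ℝ} {g : PowerSeries ℚ} (hK : 0 ≤ K) (hρ : 0 ≤ ρ) (h : ρ ≤ σ)
    (hg : Maj K ρ g) : Maj K σ g := by
  intro i
  refine (hg i).trans ?_
  gcongr

theorem typ_prod (h1 : T_TYM) (h2 : T_TYL) {s : ℕ} (b : Fin s → ℕ) (e : Fin s → ℕ) :
    Typ 1 (∑ k, e k) (∏ k, lg (b k : ℚ) ^ e k) := by
  refine prodInd (fun t g => Typ 1 t g) (typ_one 1) (fun k => lg (b k : ℚ)) ?_ e
  intro t g k hg
  exact h1 1 t 1 g _ hg (h2 1 (b k : ℚ) ⟨(b k : ℤ), by simp⟩)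

theorem maj_prod (h0 : T_MJM) {s B : ℕ} (b : Fin s → ℕ) (hb : ∀ k, b k ≤ B)
    (e : Fin s → ℕ) :
    Maj 1 (2 ^ (∑ k, e k) * B) (∏ k, lg (b k : ℚ) ^ e k) := by
  refine prodInd (fun t g => Maj 1 (2 ^ t * B) g) ?_ (fun k => lg (b k : ℚ)) ?_ e
  · exact maj_one _ (by positivity)
  · intro t g k hg
    have h3 : Maj 1 (2 ^ t * B) (lg (b k : ℚ)) := by
      refine maj_mono zero_le_one (Nat.cast_nonneg B) ?_ (maj_lg (b k) B (hb k))
      have h4 : (1 : ℝ) ≤ 2 ^ t := one_le_pow₀ (by norm_num)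
      have h5 : (0 : ℝ) ≤ B := Nat.cast_nonneg B
      nlinarith
    have h4 := h0 1 1 (2 ^ t * B) g _ (by positivity) zero_le_one hg h3
    rw [one_mul, ← mul_assoc, ← pow_succ'] at h4
    exact h4

/-- the integral coefficients -/
theorem coeff_int (h1 : T_TYM) (h2 : T_TYL) {s D T : ℕ} (b : Fin s → ℕ) (e : Fin s → ℕ)
    (he : ∑ k, e k ≤ D) (i : ℕ) (hi : i ≤ T) :
    ∃ z : ℤ, (Nat.lcmUpto T : ℚ) ^ D * PowerSeries.coeff i (∏ k, lg (b k : ℚ) ^ e k) = z := by
  obtain ⟨z, hz⟩ := typ_prod h1 h2 b e i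
  obtain ⟨r, hr⟩ := lcmUpto_dvd hi
  obtain ⟨d, hd⟩ := Nat.exists_eq_add_of_le he
  refine ⟨(Nat.lcmUpto T : ℤ) ^ d * (r : ℤ) ^ (∑ k, e k) * z, ?_⟩
  rw [Int.cast_mul, ← hz]
  push_cast
  rw [hd, hr]
  push_cast
  ring

theorem coeff_size (h0 : T_MJM) (h3 : T_LCM) {s D T B : ℕ} (b : Fin s → ℕ) (hB : 1 ≤ B)
    (hb : ∀ k, b k ≤ B) (e : Fin s → ℕ) (he : ∑ k, e k ≤ D) (i : ℕ) (hi : i ≤ T) :
    (Nat.lcmUpto T : ℝ) ^ D *
      |((PowerSeries.coeff i (∏ k, lg (b k : ℚ) ^ e k) : ℚ) : ℝ)| ≤ (438 ^ D * B) ^ T := by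
  have h4 := maj_prod h0 b hb e i
  have h5 := h3 T
  have hB' : (1 : ℝ) ≤ B := by exact_mod_cast hB
  have h6 : (1 : ℝ) ≤ 2 ^ D * B := by
    have : (1 : ℝ) ≤ 2 ^ D := one_le_pow₀ (by norm_num)
    nlinarith
  have h7 : (2 ^ (∑ k, e k) * (B : ℝ)) ^ i ≤ (2 ^ D * B) ^ T := by
    calc (2 ^ (∑ k, e k) * (B : ℝ)) ^ i ≤ (2 ^ D * B) ^ i := by
          gcongr
          norm_num
      _ ≤ (2 ^ D * B) ^ T := pow_le_pow_right₀ h6 hi
  calc (Nat.lcmUpto T : ℝ) ^ D * |((PowerSeries.coeff i (∏ k, lg (b k : ℚ) ^ e k) : ℚ) : ℝ)|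
      ≤ (219 ^ T) ^ D * (2 ^ D * B) ^ T := by
        gcongr
        rw [one_mul] at h4
        exact h4.trans h7
    _ = (438 ^ D * B) ^ T := by
        rw [← pow_mul, mul_comm T D, pow_mul, ← mul_pow, ← mul_assoc, ← mul_pow]
        norm_num

theorem MM_pos (s D : ℕ) : 1 ≤ MM s D := by
  refine Finset.card_pos.2 ⟨0, ?_⟩
  simp [II]

theorem mem_II {s D : ℕ} {e : Fin s → ℕ} : e ∈ II s D ↔ ∑ k, e k ≤ D := by
  unfold II
  rw [Finset.mem_filter, Fintype.mem_piFinset]
  constructor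
  · exact fun h => h.2
  · intro h
    refine ⟨fun k => ?_, h⟩
    rw [Finset.mem_range]
    have := Finset.single_le_sum (f := e) (fun _ _ => Nat.zero_le _) (Finset.mem_univ k)
    omega

theorem pf_SIE (h0 : T_MJM) (h1 : T_TYM) (h2 : T_TYL) (h3 : T_LCM) : T_SIE := by
  intro s D q0 hq
  have hM : 1 ≤ MM s D := MM_pos s D
  refine ⟨4 * 438 ^ D * (MM s D * q0) ^ 2, ?_, ?_⟩
  · have : 0 < 4 * 438 ^ D * (MM s D * q0) ^ 2 := by positivity
    exact this
  intro n B b hn hB hb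
  set m : ℕ := q0 * n with hm
  set T : ℕ := MM s D * q0 * n - n with hT
  have hT1 : T + n = MM s D * q0 * n := by
    have : n ≤ MM s D * q0 * n := Nat.le_mul_of_pos_left n (by positivity)
    omega
  have hT0 : 0 < T := by
    have : 2 * n ≤ MM s D * q0 * n := by
      have : 2 ≤ MM s D * q0 := by nlinarith
      exact Nat.mul_le_mul_right n this
    omega
  have hcardβ : Fintype.card ({e // e ∈ II s D} × Fin (m + 1)) = MM s D * (m + 1) := by
    rw [Fintype.card_prod, Fintype.card_coe, Fintype.card_fin]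
    rfl
  have hcardβ' : MM s D * (m + 1) = T + n + MM s D := by
    rw [hT1, hm]
    ring
  -- the integral matrix
  have hZ : ∀ (e : {e // e ∈ II s D}) (i : ℕ), ∃ z : ℤ, i ≤ T →
      (Nat.lcmUpto T : ℚ) ^ D * PowerSeries.coeff i (∏ k, lg (b k : ℚ) ^ e.1 k) = z := by
    intro e i
    by_cases hi : i ≤ T
    · obtain ⟨z, hz⟩ := coeff_int h1 h2 (D := D) b e.1 (mem_II.1 e.2) i hi
      exact ⟨z, fun _ => hz⟩
    · exact ⟨0, fun h => absurd h hi⟩
  choose Z hZ using hZ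
  have hZs : ∀ (e : {e // e ∈ II s D}) (i : ℕ), i ≤ T →
      |((Z e i : ℤ) : ℝ)| ≤ (438 ^ D * B) ^ T := by
    intro e i hi
    have h5 := coeff_size h0 h3 b hB hb e.1 (mem_II.1 e.2) i hi
    have h6 : ((Z e i : ℤ) : ℝ) = (Nat.lcmUpto T : ℝ) ^ D *
        ((PowerSeries.coeff i (∏ k, lg (b k : ℚ) ^ e.1 k) : ℚ) : ℝ) := by
      have h7 := hZ e i hi
      have h8 : (((Z e i : ℤ) : ℚ) : ℝ) = (((Nat.lcmUpto T : ℚ) ^ D *
        PowerSeries.coeff i (∏ k, lg (b k : ℚ) ^ e.1 k) : ℚ) : ℝ) := by rw [h7]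
      push_cast at h8
      exact h8
    rw [h6, abs_mul, abs_pow, Nat.abs_cast]
    exact h5
  set a : Fin T → ({e // e ∈ II s D} × Fin (m + 1)) → ℤ := fun k u =>
    if (u.2 : ℕ) ≤ k then Z u.1 (k - u.2) else 0 with ha
  have hY : (1 : ℝ) ≤ (438 ^ D * B) ^ T := by
    refine one_le_pow₀ ?_
    have h5 : (1 : ℝ) ≤ 438 ^ D := one_le_pow₀ (by norm_num)
    have h6 : (1 : ℝ) ≤ B := by exact_mod_cast hB
    nlinarith
  obtain ⟨t, ht0, ht, htb⟩ := siegel a ((438 ^ D * B) ^ T) (MM s D * q0) hY (by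
    intro v u
    rw [ha]
    dsimp only
    split_ifs with h
    · exact hZs _ _ (by have := v.2; omega)
    · simp only [Int.cast_zero, abs_zero]
      positivity) (by rw [Fintype.card_fin, hcardβ]; omega) (by rw [Fintype.card_fin]; exact hT0)
    (by
      rw [Fintype.card_fin, hcardβ, hcardβ']
      push_cast
      have h5 : ((T : ℝ) + n) = MM s D * q0 * n := by exact_mod_cast hT1
      have h6 : (0 : ℝ) ≤ n := Nat.cast_nonneg n
      have h7 : (0 : ℝ) ≤ MM s D * q0 * MM s D := by positivity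
      nlinarith)
  -- the polynomials
  obtain ⟨A, hA⟩ : ∃ A : Vec s, A = fun e => if h : e ∈ II s D then
      ∑ j : Fin (m + 1), C ((t (⟨e, h⟩, j) : ℤ) : ℚ) * X ^ (j : ℕ) else 0 := ⟨_, rfl⟩
  have hA1 : ∀ e : {e // e ∈ II s D}, A e.1 =
      ∑ j : Fin (m + 1), C ((t (e, j) : ℤ) : ℚ) * X ^ (j : ℕ) := by
    intro e
    rw [hA]
    dsimp only
    rw [dif_pos e.2]
  have hA0 : ∀ e, e ∉ II s D → A e = 0 := by
    intro e h
    rw [hA]
    dsimp only
    rw [dif_neg h]
  have hAc : ∀ (e : {e // e ∈ II s D}) (i : ℕ), (A e.1).coeff i =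
      if h : i < m + 1 then ((t (e, ⟨i, h⟩) : ℤ) : ℚ) else 0 := by
    intro e i
    rw [hA1, finsetSum_coeff]
    simp only [coeff_C_mul, coeff_X_pow, mul_ite, mul_one, mul_zero]
    split_ifs with h
    · rw [Finset.sum_eq_single (⟨i, h⟩ : Fin (m + 1))]
      · rw [if_pos rfl]
      · intro j _ hj
        rw [if_neg]
        intro h'
        exact hj (Fin.ext h'.symm)
      · intro h'
        exact absurd (Finset.mem_univ _) h'
    · refine Finset.sum_eq_zero fun j _ => ?_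
      rw [if_neg]
      intro h'
      exact h (h' ▸ j.2)
  have hAint : ∀ e j, ∃ z : ℤ, (A e).coeff j = z ∧
      |(z : ℝ)| ≤ (MM s D * (m + 1) * (438 ^ D * B) ^ T : ℝ) ^ (MM s D * q0) := by
    intro e j
    by_cases he : e ∈ II s D
    · have h5 := hAc ⟨e, he⟩ j
      dsimp only at h5
      by_cases hj : j < m + 1
      · rw [dif_pos hj] at h5
        refine ⟨_, h5, ?_⟩
        have h6 := htb (⟨e, he⟩, ⟨j, hj⟩)
        rw [hcardβ] at h6
        push_cast at h6
        exact h6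
      · rw [dif_neg hj] at h5
        refine ⟨0, by rw [h5]; simp, ?_⟩
        simp only [Int.cast_zero, abs_zero]
        positivity
    · refine ⟨0, by rw [hA0 e he]; simp, ?_⟩
      simp only [Int.cast_zero, abs_zero]
      positivity
  refine ⟨A, ?_, ?_, ?_, ?_, ?_, ?_⟩
  · intro hA00
    apply ht0
    funext u
    have h5 := hAc u.1 u.2
    rw [hA00, dif_pos u.2.2] at h5
    simp only [Pi.zero_apply, coeff_zero] at h5
    have h6 : ((t u : ℤ) : ℚ) = 0 := h5.symm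
    exact_mod_cast h6
  · intro e he
    exact hA0 e fun h => by
      have := mem_II.1 h
      omega
  · intro e
    rw [natDegree_le_iff_coeff_eq_zero]
    intro j hj
    by_cases he : e ∈ II s D
    · have h5 := hAc ⟨e, he⟩ j
      dsimp only at h5
      rw [h5, dif_neg (by omega)]
    · rw [hA0 e he, coeff_zero]
  · intro e j
    obtain ⟨z, hz, -⟩ := hAint e j
    exact ⟨z, hz⟩
  · intro e j
    obtain ⟨z, hz, hzb⟩ := hAint e j
    rw [hz]
    push_cast
    refine hzb.trans ?_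
    have h438 : (1 : ℝ) ≤ 438 ^ D := one_le_pow₀ (by norm_num)
    have hB' : (1 : ℝ) ≤ B := by exact_mod_cast hB
    have hMq : 1 ≤ MM s D * q0 := by nlinarith
    have h5 : (MM s D * (m + 1) : ℝ) ≤ 4 ^ (MM s D * q0 * n) := by
      have h6 : MM s D * (m + 1) ≤ 2 * (MM s D * q0 * n) := by
        have : MM s D ≤ MM s D * q0 * n := by
          have : MM s D * 1 ≤ MM s D * (q0 * n) := Nat.mul_le_mul_left _ (by nlinarith)
          nlinarith
        rw [hcardβ', hT1]
        omega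
      have h7 : 2 * (MM s D * q0 * n) ≤ 4 ^ (MM s D * q0 * n) := by
        have h8 : MM s D * q0 * n < 2 ^ (MM s D * q0 * n) := Nat.lt_two_pow_self
        have h9 : 2 ≤ 2 ^ (MM s D * q0 * n) := by
          refine Nat.le_self_pow ?_ 2
          have : 0 < MM s D * q0 * n := by positivity
          omega
        calc 2 * (MM s D * q0 * n) ≤ 2 ^ (MM s D * q0 * n) * 2 ^ (MM s D * q0 * n) :=
              Nat.mul_le_mul h9 h8.le
          _ = 4 ^ (MM s D * q0 * n) := by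
              rw [← mul_pow]
              norm_num
      exact_mod_cast h6.trans h7
    have h6 : ((438 : ℝ) ^ D * B) ^ T ≤ (438 ^ D * B) ^ (MM s D * q0 * n) := by
      refine pow_le_pow_right₀ ?_ (by omega)
      nlinarith
    have h7 : (MM s D * (m + 1) * (438 ^ D * B) ^ T : ℝ) ≤
        (4 * 438 ^ D * B) ^ (MM s D * q0 * n) := by
      calc (MM s D * (m + 1) * (438 ^ D * B) ^ T : ℝ)
          ≤ 4 ^ (MM s D * q0 * n) * (438 ^ D * B) ^ (MM s D * q0 * n) := by gcongr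
        _ = (4 * 438 ^ D * B) ^ (MM s D * q0 * n) := by
            rw [← mul_pow]
            congr 1
            ring
    calc (MM s D * (m + 1) * (438 ^ D * B) ^ T : ℝ) ^ (MM s D * q0)
        ≤ ((4 * 438 ^ D * B) ^ (MM s D * q0 * n)) ^ (MM s D * q0) := by gcongr
      _ = (4 * 438 ^ D * B) ^ ((MM s D * q0) ^ 2 * n) := by
          rw [← pow_mul]
          congr 1
          ring
      _ ≤ (4 * 438 ^ D * (MM s D * q0) ^ 2 * B) ^ ((MM s D * q0) ^ 2 * n) := by
          have h8 : (1 : ℝ) ≤ (MM s D * q0) ^ 2 := by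
            refine one_le_pow₀ ?_
            exact_mod_cast hMq
          refine pow_le_pow_left₀ (by positivity) ?_ _
          refine mul_le_mul_of_nonneg_right ?_ (by positivity)
          exact le_mul_of_one_le_right (by positivity) h8
      _ ≤ (4 * 438 ^ D * (MM s D * q0) ^ 2 * B) ^ (4 * 438 ^ D * (MM s D * q0) ^ 2 * n) := by
          refine pow_le_pow_right₀ ?_ ?_
          · have h8 : (1 : ℝ) ≤ (MM s D * q0) ^ 2 := by
              refine one_le_pow₀ ?_
              exact_mod_cast hMq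
            have h9 : (1 : ℝ) ≤ 4 * 438 ^ D := by linarith
            exact one_le_mul_of_one_le_of_one_le (one_le_mul_of_one_le_of_one_le h9 h8) hB'
          · refine Nat.mul_le_mul_right n ?_
            refine Nat.le_mul_of_pos_left _ (by positivity)
  · rw [PowerSeries.X_pow_dvd_iff]
    intro k hk
    have h5 := ht ⟨k, hk⟩
    have h6 : ((Nat.lcmUpto T : ℚ) ^ D) ≠ 0 := by
      have := Nat.lcmUpto_pos T
      positivity
    refine (mul_eq_zero.1 ?_).resolve_left h6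
    have h7 : ∀ e : {e // e ∈ II s D}, PowerSeries.coeff k (((A e.1 : ℚ[X]) : PowerSeries ℚ) *
        ∏ l, lg (b l : ℚ) ^ e.1 l) = ∑ j : Fin (m + 1), ((t (e, j) : ℤ) : ℚ) *
        (if (j : ℕ) ≤ k then PowerSeries.coeff (k - j) (∏ l, lg (b l : ℚ) ^ e.1 l) else 0) := by
      intro e
      have h8 : ((A e.1 : ℚ[X]) : PowerSeries ℚ) =
          ∑ j : Fin (m + 1), PowerSeries.C ((t (e, j) : ℤ) : ℚ) * PowerSeries.X ^ (j : ℕ) := by
        rw [hA1]
        have h9 := map_sum (Polynomial.coeToPowerSeries.ringHom (R := ℚ))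
          (fun j : Fin (m + 1) => C ((t (e, j) : ℤ) : ℚ) * X ^ (j : ℕ)) Finset.univ
        rw [Polynomial.coeToPowerSeries.ringHom_apply] at h9
        rw [h9]
        refine Finset.sum_congr rfl fun j _ => ?_
        rw [Polynomial.coeToPowerSeries.ringHom_apply, Polynomial.coe_mul, Polynomial.coe_pow,
          Polynomial.coe_C, Polynomial.coe_X]
      rw [h8, Finset.sum_mul, map_sum]
      refine Finset.sum_congr rfl fun j _ => ?_
      rw [mul_assoc, PowerSeries.coeff_C_mul, PowerSeries.coeff_X_pow_mul']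
    rw [evf, map_sum, ← Finset.sum_coe_sort, Finset.mul_sum]
    simp only [h7]
    have h8 : (((∑ u, a ⟨k, hk⟩ u * t u : ℤ)) : ℚ) = 0 := by rw [h5]; simp
    refine Eq.trans ?_ h8
    rw [Fintype.sum_prod_type]
    push_cast
    refine Finset.sum_congr rfl fun e _ => ?_
    rw [Finset.mul_sum]
    refine Finset.sum_congr rfl fun j _ => ?_
    rw [ha]
    dsimp only
    split_ifs with h
    · rw [← hZ e (k - j) (by omega)]
      ring
    · simp

end Pool.Agent.H39.PS
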